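import Pool.Agent.V7H66.BO.Main

/-!
# No Borel operation solves Post's problem with bounded non-uniformity

`W r X` is the set c.e. in `X` with index `r`, `J X` is the jump of `X`, `le Y X` is Turing
reducibility `Y ≤_T X` (Mathlib's), `ch P` is the characteristic function of `P`, and `Red c X Y`
says that the program `c` reduces `Y` to `X` (all in `Pool/Agent/H639/LU/Defs.lean`; `Y ≤_T X`
holds iff some program reduces `Y` to `X`, part 7). `jn 0 A B` is the join `A ⊕ B`, `Clo F` says
that the set `F` of oracles is closed in the Cantor space, `Cof F` that it has members of cofinally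
many Turing degrees. `Bor B` says that `B` is a Borel set of oracles, and `BorOn F G` that the
restriction of the operation `G` to `F` is Borel: all sets `{X ∈ F : n ∈ G X}` are Borel
(`Pool/Agent/V7H66/BO/Det.lean`, `Main.lean`).

Lachlan (1975) showed that a degree invariant c.e. operator which solves Post's problem cannot be
uniformly invariant, Slaman and Steel (1988) that a uniformly invariant Borel operation strictly
above the identity is above the jump on a cone. The start files of this folder treat c.e. operators
(and finite compositions and Boolean combinations of them) which are invariant with at most `k`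
candidate programs for each pair of programs, on a cone or a closed set. Here `F` is any Borel
set of oracles, `G` is any Borel operation on `F`, and the hypotheses are needed for cofinally
many degrees only.

1. Local form. Let `G X ≰_T X` for `X` in `F` of cofinally many degrees. Then for all `X` in a
   cone (not only those in `F`), all `V ≥_T X` and all `k`: if a set c.e. in `V` provides, for every
   pair `(i, j)` of programs, at most `k` programs such that for all `Y` in `F` with `Y ≡_T X` via
   `(i, j)` one of them reduces `G Y` to `V`, then `X' ≤_T V`.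
2. Let `G` be as in 1, and let `K` be any operation, Borel or not, such that for the `X` in `F` in a
   cone some member of a fixed finite list of programs reduces `G X` to `K X`, and `K` is
   invariant with `k` candidates. Then `X' ≤_T X ⊕ K X` for all `X` in `F` in a cone.
3. Dichotomy: a Borel operation `G` which is invariant with `k` candidates on the part of `F` in a
   cone has `G X ≤_T X` for all `X` in `F` in a cone, or `X' ≤_T X ⊕ G X` for all `X` in `F` in a
   cone.
4. Post's problem: let the set of the `X` in `F` with `G X ≰_T X` and `X' ≰_T X ⊕ G X` have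
   members of cofinally many degrees. Then for every `k` there is a pair `(i, j)` of programs for
   which no `k` programs suffice, even for `X`, `Y` in this set, in any cone.
5. The pair in 4 has to depend on the set: for every Borel set `F` with members of cofinally many
   degrees and every finite set of programs there is a closed subset of the same kind such that
   none of these programs reduces a member to another one.
6. The operators `X ↦ W_r^X` are Borel, and Borel operations are closed under composition (so the
   compositions and Boolean combinations of c.e. operators are Borel).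

Proof. Consider the game in which the second player plays an oracle `y` and announces some of the
levels `1, …, k`, and the first player plays an oracle `z`; for given numbers `n_1, …, n_k`, digits
`b_1, …, b_k` and a program `e` the first player wins if `z ∈ F`, `e` reduces `y` to `z`, and if
`v` is the highest level announced, then `G z` has at `n_v` not the digit `b_v`, and at the `n_i`
with `i > v` the digit `b_i`. By Borel determinacy one of the players has a winning strategy. If
the second player wins all these games, then the recursion theorem (with parameters) shows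
that for the `z ∈ F` which compute the strategies `G z` is computable in `z`, by an argument which
is dual to the cardinality lemma for c.e. sets. If the first player wins one of them for each `k`,
then the answers of his strategy code the number of elements of a `k`-element set in the jump of
`X`, and the argument of `BoundedNonuniformity` applies. For 5: Martin's argument (a Borel set with
members of cofinally many degrees contains a closed one) and countable additivity. Borel
determinacy is the start file `Pool/Agent/Q203/BD/Main.lean`.
-/

set_option autoImplicit false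

namespace Pool.Agent.Results.MP_57825d_lc.BorelOperationsH66

open Nat.Partrec (Code)
open Encodable
open Pool.Agent.H639.LU Pool.Agent.H869R3.FN Pool.Agent.Y579.PP Pool.Agent.V7H66.BO

theorem result :
    -- 1. the local form
    (∀ (F : Set (ℕ → Bool)) (G : (ℕ → Bool) → ℕ → Bool), Bor F → BorOn F G →
      Cof {X | X ∈ F ∧ ¬ le (G X) X} →
      ∃ z₁ : ℕ → Bool, ∀ X, le z₁ X → ∀ V : ℕ → Bool, le X V → ∀ (k : ℕ) (e : Code),
        (∀ i j : Code, {l : Code | W e V (encode (i, j, l))}.encard ≤ k) →
        (∀ i j : Code, ∀ Y ∈ F, Red i X Y → Red j Y X →
          ∃ l : Code, W e V (encode (i, j, l)) ∧ Red l V (G Y)) →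
        le (ch (J X)) V) ∧
    -- 2. arbitrary operations above a Borel operation
    (∀ (F : Set (ℕ → Bool)) (G : (ℕ → Bool) → ℕ → Bool), Bor F → BorOn F G →
      Cof {X | X ∈ F ∧ ¬ le (G X) X} →
      ∀ (K : (ℕ → Bool) → ℕ → Bool) (D : Finset Code) (z₀ : ℕ → Bool),
      (∀ X ∈ F, le z₀ X → ∃ d ∈ D, Red d (K X) (G X)) →
      ∀ (k : ℕ) (u : Code → Code → Finset Code), (∀ i j, (u i j).card ≤ k) →
      (∀ X ∈ F, le z₀ X → ∀ i j : Code, ∀ Y ∈ F, Red i X Y → Red j Y X →
        ∃ l ∈ u i j, Red l (K X) (K Y)) →
      ∃ z, ∀ X ∈ F, le z X → le (ch (J X)) (jn 0 X (K X))) ∧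
    -- 3. the dichotomy
    (∀ (F : Set (ℕ → Bool)) (G : (ℕ → Bool) → ℕ → Bool), Bor F → BorOn F G →
      ∀ (z₀ : ℕ → Bool) (k : ℕ) (u : Code → Code → Finset Code), (∀ i j, (u i j).card ≤ k) →
      (∀ X ∈ F, le z₀ X → ∀ i j : Code, ∀ Y ∈ F, Red i X Y → Red j Y X →
        ∃ l ∈ u i j, Red l (G X) (G Y)) →
      (∃ z, ∀ X ∈ F, le z X → le (G X) X) ∨
        ∃ z, ∀ X ∈ F, le z X → le (ch (J X)) (jn 0 X (G X))) ∧
    -- 4. solutions to Post's problem
    (∀ (F : Set (ℕ → Bool)) (G : (ℕ → Bool) → ℕ → Bool), Bor F → BorOn F G →
      Cof {X | X ∈ F ∧ ¬ le (G X) X ∧ ¬ le (ch (J X)) (jn 0 X (G X))} →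
      ∀ k : ℕ, ∃ i j : Code, ∀ L : Finset Code, L.card ≤ k → ∀ z : ℕ → Bool,
        ∃ X ∈ {X | X ∈ F ∧ ¬ le (G X) X ∧ ¬ le (ch (J X)) (jn 0 X (G X))},
        ∃ Y ∈ {X | X ∈ F ∧ ¬ le (G X) X ∧ ¬ le (ch (J X)) (jn 0 X (G X))},
          le z X ∧ Red i X Y ∧ Red j Y X ∧ ∀ l ∈ L, ¬ Red l (G X) (G Y)) ∧
    -- 5. closed subsets on which finitely many programs are trivial
    (∀ F : Set (ℕ → Bool), Bor F → Cof F → ∀ P : Finset Code,
      ∃ F' ⊆ F, Clo F' ∧ Cof F' ∧ ∀ i ∈ P, ∀ X ∈ F', ∀ Y ∈ F', Red i X Y → X = Y) ∧
    -- 6. examples of Borel operations
    ((∀ r : Code, BorOn Set.univ (fun X => ch (W r X))) ∧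
      ∀ G H : (ℕ → Bool) → ℕ → Bool, BorOn Set.univ G → BorOn Set.univ H →
        BorOn Set.univ (fun X => G (H X))) ∧
    -- 7. reducibility and programs
    (∀ X Y : ℕ → Bool, le Y X ↔ ∃ c : Code, Red c X Y) :=
  ⟨fun _ _ hF hG h => local_form hF hG h,
    fun _ _ hF hG h K D z₀ hD k u hu hinv => above_borel hF hG h K D z₀ hD k u hu hinv,
    fun _ _ hF hG z₀ k u hu hinv => dich_borel hF hG z₀ k u hu hinv,
    fun _ _ hF hG hs k => post_borel hF hG hs k,
    fun _ hF hc P => fin_indep hF hc P,
    ⟨borOn_W, fun _ _ hG hH => borOn_comp hG hH⟩,
    le_iff⟩

end Pool.Agent.Results.MP_57825d_lc.BorelOperationsH66
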