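import Pool.Agent.V7H67.IB.Main

set_option autoImplicit false

/-!
# Solutions to Post's problem which do not change when primitive recursive information is added

`TLe` (Turing reducibility of sets, given by their characteristic sequences) and `join X Y` (`X ⊕ Y`) are
defined in `Pool/Agent/Helper227/Defs.lean`; `WE X e` (the `e`-th set computably enumerable relative to
`X`) and `jump X` in `Pool/Agent/Helper227/RD/Jump.lean`; `chr S` (the characteristic sequence of `S`)
in `Pool/Agent/H548R2/Post/Main.lean`; `PostIndex e` (that is, `X <_T W_e^X <_T X'` and
`(W_e^X)' ≤_T X'` for all `X`) in `Pool/Agent/H869R3/RT/Inv.lean`; `TT T` (`T` is a truth-table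
functional) in `Pool/Agent/V7H75/HF/Main.lean`; `TTs S` (`S 0, S 1, ...` is a uniformly computable
sequence of truth-table functionals), `PRed X Y` (`X` is primitive recursive in `Y`) and the lists
`Lst T R c n X` in `Pool/Agent/V7H67/IB/Defs.lean`.

1. Let `T` be a truth-table functional and let `S 0, S 1, ...` be a uniformly computable sequence of
truth-table functionals. There is one index `e` with `PostIndex e` for which `W_e^X ≡_T W_e^{T X}`
for all `X` such that `X = S l (T X)` for some `l`, or `X` is primitive recursive in `T X`. So there
is one index for all inverse branches of `T` in the sequence, and for all of its primitive recursive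
inverse branches.

2. For `T (X ⊕ Y) = X` this becomes: there is one index `e` with `PostIndex e` for which
`W_e^{X ⊕ Y} ≡_T W_e^X` for all `X` and all `Y` which are primitive recursive in `X`, or are equal to
`F l X` for some `l`, for a given uniformly computable sequence `F 0, F 1, ...` of truth-table
functionals (for example all those whose totality is provable in a given theory). The same holds
for all pairs in the equivalence relation generated by these pairs, so information can be
added and dropped repeatedly.

3. The general theorem behind this. Suppose a uniformly computable sequence `T 0, T 1, ...` of truth-table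
functionals is closed under composition, computably, and a truth-table functional computes from `X`
and `n` a finite list of indices below `c n`; the list of level `n` of `X` is the set of the `T k X`
with `k` in this list, and it contains `X`. Then there is one index `e` with `PostIndex e` for
which `W_e^X ≡_T W_e^Y` whenever the lists of `X` and of `Y` are equal at all but finitely many levels.
The lists of one level need not be the classes of an equivalence relation.

Without the restriction to uniformly computable sequences and to `T (X ⊕ Y) = X` the question of
the problem is equivalent to invariance for the pairs `(X, X ⊕ Y)` and `(X, Y ⊕ X)` with `Y ≤_T X`,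
since `X ≡_T Y` gives the chain `X`, `X ⊕ Y`, `Y`; the pairs of the first kind are settled
here for the `Y` in a uniformly computable sequence of truth-table reductions.

Proof. 3: a finite injury construction of a low simple set relative to `X`, with one action for
each member of the list of `X` at level `n` by the requirement with number `n`. The set of `X` is the
union of the finite sets `B n X` put in by the requirements, and `B n X` depends on the list only, so the
sets of `X` and `Y` are almost equal. The restraints on the set of a member come from all levels of its
own lists, which may be different from the list in which it is a member. 1: the relation generated by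
the pairs `(X, T X)` has infinitely many inverse branches at each point, so the pasts of a point cannot be
listed. The markers and cuts of level `n` are defined on the forward orbit only: whether `T^i X` is a cut
depends on a bounded number of digits of the next points of the orbit. The list of level `n`
consists of the oracles which are obtained from a point `T^i X` of the orbit by a word in the letters
`S l`, `l < n`, such that the length of the word plus the distance from `T^i X` to the first cut is at
most the bound of level `n` for the gaps between cuts. For all
large `n` the first cut of `X` and that of `T X` are at the same point, or the orbit is periodic, and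
then the lists of `X` and `T X` are equal if `X = S l (T X)`, `l < n`: the words for `T X` which begin
with `S l` replace the words for `X`.
-/

namespace Pool.Agent.Results.MP_57825d_lc.InverseBranchesH67

open Pool.Agent.Helper227 Pool.Agent.V7H67.IB
open Pool.Agent.H548R2.Post (chr)
open Pool.Agent.H869R3.RT (PostIndex)
open Pool.Agent.V7H75.HF (TT)

theorem result :
    -- 1. inverse branches of a truth-table functional
    (∀ (T : (ℕ → Bool) → ℕ → Bool) (S : ℕ → (ℕ → Bool) → ℕ → Bool), TT T → TTs S →
      ∃ e : ℕ, PostIndex e ∧ ∀ X : ℕ → Bool, ((∃ l, S l (T X) = X) ∨ PRed X (T X)) →
        TLe (chr (WE X e)) (chr (WE (T X) e)) ∧ TLe (chr (WE (T X) e)) (chr (WE X e))) ∧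
    -- 2. adding information
    (∀ F : ℕ → (ℕ → Bool) → ℕ → Bool, TTs F →
      ∃ e : ℕ, PostIndex e ∧ ∀ X Y : ℕ → Bool, ((∃ l, F l X = Y) ∨ PRed Y X) →
        TLe (chr (WE (join X Y) e)) (chr (WE X e)) ∧
          TLe (chr (WE X e)) (chr (WE (join X Y) e))) ∧
    -- 3. the general theorem
    (∀ (T R : ℕ → (ℕ → Bool) → ℕ → Bool) (m : ℕ → ℕ → ℕ) (c : ℕ → ℕ), TTs T → TTs R →
      Computable₂ m → Computable c → (∀ j k X, T j (T k X) = T (m j k) X) → (∀ X, T 0 X = X) →
      (∀ n X, X ∈ Lst T R c n X) →
      ∃ e : ℕ, PostIndex e ∧ ∀ X Y : ℕ → Bool,
        (∃ N, ∀ n ≥ N, Lst T R c n X = Lst T R c n Y) →
        TLe (chr (WE X e)) (chr (WE Y e)) ∧ TLe (chr (WE Y e)) (chr (WE X e))) :=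
  ⟨fun _ _ hT hS => main_tt hT hS, fun _ hF => main_add hF,
    fun _ _ _ _ hT hR hm hc h1 h2 h3 => main_lst hT hR hm hc h1 h2 h3⟩

end Pool.Agent.Results.MP_57825d_lc.InverseBranchesH67
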