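import Pool.Agent.V7H75.TX.PosF

set_option autoImplicit false

/-!
# Post's problem, and primitive recursive changes without cycles

`TLe` (Turing reducibility of sets, given by their characteristic sequences) and `join X Y`
(`X ⊕ Y`) are defined in `Pool/Agent/Helper227/Defs.lean`; `WE X e` (the `e`-th set computably
enumerable relative to `X`) and `jump X` in `Pool/Agent/Helper227/RD/Jump.lean`; `chr S` (the
characteristic sequence of `S`) in `Pool/Agent/H548R2/Post/Main.lean`; `PostIndex e` (that is,
`X <_T W_e^X <_T X'` and `(W_e^X)' ≤_T X'` for all `X`) in `Pool/Agent/H869R3/RT/Inv.lean`;
`TTs S` (`S 0, S 1, ...` is a uniformly computable sequence of truth-table functionals) and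
`PRed X Y` (`X` is primitive recursive in `Y`) in `Pool/Agent/V7H67/IB/Defs.lean`.

The oracle `X` is read as a sequence `X_0, X_1, ...` of oracles, its columns: `col j X` is `X_j`. A
computable strict partial order of the columns is given: `O i j = true` says that `i` is below `j`.
The oracle `up O j X` has the columns of `X` above `j`, its other columns are empty; we write `X_{>j}`
for it (both are defined in `Pool/Agent/V7H75/TX/Defs.lean`). In a change of the oracle (`Change`,
below) one column `X_j` is replaced by `Y_j`, in one of the following ways. It depends on `j` which
one is allowed; this is given by a computable set `J`.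

* For `j` not in `J`: the symmetric difference of `X_j` and `Y_j` is primitive recursive in `X_{>j}`.
  So one may add to `X_j` all sets which are primitive recursive in the columns above `j`.
* For `j` in `J`: `Y_j = T_j(X_j)`, and `X_j` is primitive recursive in `Y_j ⊕ X_{>j}`. Here `T_0`,
  `T_1`, ... is a given uniformly computable sequence of truth-table functionals. So one may pass to
  `T_j(X_j)` if, together with the columns above `j`, it still has the information in `X_j`, and
  conversely one may pass from `Y_j` to all `X_j` with `T_j(X_j) = Y_j` which are primitive
  recursive in `Y_j` and the columns above `j`.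

Instead of primitive recursive functionals one can use the members of any given uniformly
computable sequence `S` of truth-table functionals, in addition to the primitive recursive ones.

The theorem: there is one index `e` with `PostIndex e` and with `W_e^X ≡_T W_e^Y` for all `X` and `Y`
which are equivalent in the equivalence relation generated by the changes. So information can be
moved from all the columns above `j` to the column `j`, for infinitely many columns, and the order
need not be well-founded in any direction (it may be dense). What is excluded are cycles. If changes of
each of two columns by sets primitive recursive in the other one were possible, this would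
be invariance under all primitive recursive equivalences: `(X, ∅)`, `(X, Y)`, `(∅, Y)`, `(Y, Y)`,
`(Y, ∅)` would be equivalent.

For one column in `J` and no others, this is part 1 of the theorem `InverseBranchesH67` of this
folder; for two columns, the lower one not in `J` and the upper one not changed, it is part 3 of
`LocallyFiniteActions`.

Proof. By the general theorem of `InverseBranchesH67` (its part 3) it is enough to find finite lists,
computable uniformly in `X`, which are finally the same for `X` and `Y` if `Y` is obtained from `X` by
one change. The list of level `n` is made of changes of the first `n` columns, which are taken from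
the top of the order to the bottom, after a computable linearization which depends on `n`. If the
list `P` of the possible columns above `j` has been found, then the possible columns `j` are those
which are reached from `X_j` by adding sets `S_l(Z)`, with `l < n` and `Z` in `P`, or from the
forward orbit of `X_j` under `T_j` by at most so many of the functions `S_l(· ⊕ Z)` that the first
cut of level `n` of the forward orbit is at a distance not larger than a bound. The lists contain
also those points which are obtained with wrong parameters `Z`; they are computed for all oracles
of the Cantor space, and the bounds on the number of the points do not depend on the oracle.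
-/

namespace Pool.Agent.Results.MP_57825d_lc.OrderedColumnsH75

open Pool.Agent.Helper227
open Pool.Agent.H548R2.Post (chr)
open Pool.Agent.H869R3.RT (PostIndex)
open Pool.Agent.V7H67.IB (TTs PRed)
open Pool.Agent.V7H75.TX (col up)

/-- `Y` is obtained from `X` by an allowed change of the column `j`. -/
def Change (O : ℕ → ℕ → Bool) (J : ℕ → Bool) (T S : ℕ → (ℕ → Bool) → ℕ → Bool) (j : ℕ)
    (X Y : ℕ → Bool) : Prop :=
  (∀ i, i ≠ j → col i Y = col i X) ∧
    ((J j = true ∧ col j Y = T j (col j X) ∧
        ((∃ l, S l (join (col j Y) (up O j X)) = col j X) ∨
          PRed (col j X) (join (col j Y) (up O j X)))) ∨
      (J j = false ∧ ((∃ l, S l (up O j X) = fun n => xor (col j X n) (col j Y n)) ∨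
        PRed (fun n => xor (col j X n) (col j Y n)) (up O j X))))

/-- Let `O` be a computable strict partial order of `ω`, let `J` be computable, and let `T` and `S` be
uniformly computable sequences of truth-table functionals. There is one index `e` such that
`X <_T W_e^X <_T X'` and `(W_e^X)' ≤_T X'` for all `X`, and `W_e^X ≡_T W_e^Y` for all `X` and `Y` in
the equivalence relation generated by the changes. -/
theorem result (O : ℕ → ℕ → Bool) (hO : Computable₂ O) (irrefl : ∀ a, O a a = false)
    (trans : ∀ a b c, O a b = true → O b c = true → O a c = true) (J : ℕ → Bool)
    (hJ : Computable J) (T S : ℕ → (ℕ → Bool) → ℕ → Bool) (hT : TTs T) (hS : TTs S) :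
    ∃ e : ℕ, PostIndex e ∧ ∀ X Y : ℕ → Bool,
      Relation.EqvGen (fun X Y => ∃ j, Change O J T S j X Y) X Y →
      TLe (chr (WE X e)) (chr (WE Y e)) ∧ TLe (chr (WE Y e)) (chr (WE X e)) := by
  obtain ⟨e, he, h⟩ := Pool.Agent.V7H75.TX.P.main_pos irrefl trans hO hJ hT hS
  refine ⟨e, he, fun X Y hXY => ?_⟩
  induction hXY with
  | rel X Y h1 =>
    obtain ⟨j, h2, h3⟩ := h1
    exact h X Y j h2 h3
  | refl X => exact ⟨TuringReducible.refl _, TuringReducible.refl _⟩
  | symm X Y _ ih => exact ⟨ih.2, ih.1⟩
  | trans X Y Z _ _ ih1 ih2 =>
    exact ⟨TuringReducible.trans ih1.1 ih2.1, TuringReducible.trans ih2.2 ih1.2⟩

end Pool.Agent.Results.MP_57825d_lc.OrderedColumnsH75
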