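import Pool.Agent.V7H75.TQ.Main

set_option autoImplicit false

/-!
# Solutions to Post's problem: one program with finitely many ways back, several programs on
different parts of the oracle, and finite changes

`W r X` is the set c.e. in `X` with index `r`, `J X` is the jump of `X`, `le Y X` is Turing
reducibility `Y ≤_T X` (Mathlib's), `ch P` is the characteristic function of `P`, and `Red c X Y`
says that the program `c` reduces `Y` to `X` (`Pool/Agent/H639/LU/Defs.lean`; `Y ≤_T X` holds if
and only if some program reduces `Y` to `X`). `evn X` and `odd X` are the halves of `X`, so
`X = evn X ⊕ odd X` (`Pool/Agent/V7H75/HF/Iter.lean`). `Post r` (below) is condition (i) of the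
question: `X <_T W_r^X <_T X'` for all `X`.

1. For every program `i` and every finite list `M` of programs there is an operator `W_r` with (i), and
with `W_r^X ≡_T W_r^Y` whenever `i` reduces `Y` to `X` and some `j` in the list `M` reduces `X` to `Y`.
The index `r` depends on `i` and `M`. For each `Y` there may be as many `X` as `M` has members, so
the relation has the form of a tail equivalence relation. Special cases: one pair of Turing
reductions (`M = [j]`); tail equivalence (`i` drops the first digit, `M` has the two programs which
put `0` or `1` in front).

2. Several programs at the same time. Let `(i₀, M₀), ..., (i_{k-1}, M_{k-1})` be programs and finite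
lists of programs. The oracles are read as `X = X₀ ⊕ (X₁ ⊕ (... ⊕ (X_{k-1} ⊕ Z)))`. There is an
operator `W_r` with (i) which is invariant for the changes of one part `X_c` by the program `i_c` with
ways back in `M_c`, for all `c < k`, and for all finite changes of `Z`. So the condition (ii) holds
for the equivalence relation which is generated by all these changes.

By the start file `FlipAndOnePair` of this folder there is one pair of programs such that
invariance for this pair and for the change of the first digit of the oracle is invariance
for all `X ≡_T Y`. So the question is about two pairs of programs, one of them the simplest one,
which act on the same oracle. Here one pair is settled, and any finite number of pairs together with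
the changes of single digits, if they act on different parts of the oracle.

Proof. For 1: the forward orbit `X, i(X), i(i(X)), …` is followed as long as the functional is defined
and one of the programs in `M` leads back; two oracles are in the same class if and only if their
forward orbits meet, and the places of the construction are places of forward orbits only. It is
not decidable where a forward orbit ends. At level `n` the end which is seen is the first place at
which the reconstruction by some program of `M` is not correct on the first `n` digits; as the list
is finite, the ends for the levels converge to the true end. Markers and cuts of level `n` at a place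
depend on finitely many digits of finitely many future oracles. Two oracles in the same class have
the same root of level `n` (the first cut in the future) for almost all `n`, and each of them is
obtained from the root by a path back, whose code is less than a bound which depends on `n`.

We define systems of roots for a relation in general (`Pool/Agent/V7H75/TQ/Sys.lean`): for
each `X` and almost all `n` a root of level `n`, which `X` can compute, and from which `X` is
obtained by a path back with bounded code; related oracles have the same root for almost all
`n`. There are such systems for 1, for the changes of single digits (the first `n` digits are
replaced by zeros), and for the product of two relations which have such systems, which act on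
the two halves of the oracle.

A system of roots gives a solution. A label of level `n` has the code of a path back from a
root, so one oracle `Y` below the root, and a program `k ≤ n`. It acts once, on behalf of `Y`,
if the `k`-th set c.e. in `Y` contains the number which is reserved for the label and the use. The
conditions under which a label may act are evaluated on the current strings of all paths back from
the root, also the false ones; false paths have no oracle at the end, and therefore they can
delay a label, but can not block it for ever. So no `Y` computes its set. If the jump of `X` were
computable in the set of `X`, then by the recursion theorem there would be a `c` such that we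
can enumerate numbers into the `c`-th set c.e. in `X` and have a computation from the set of `X`
which says that they are not enumerated. The enumeration of the reserved numbers locks the labels,
from above, so that the computation cannot be destroyed any more, and then it is wrong.
-/

namespace Pool.Agent.Results.MP_57825d_lc.SeveralProgramsH75

open Nat.Partrec (Code)
open Pool.Agent.H639.LU
open Pool.Agent.V7H75.HF (evn odd)

/-- Condition (i) of the question. -/
def Post (r : Code) : Prop := ∀ X : ℕ → Bool,
  le X (ch (W r X)) ∧ ¬ le (ch (W r X)) X ∧
    le (ch (W r X)) (ch (J X)) ∧ ¬ le (ch (J X)) (ch (W r X))

/-- The degrees of `W_r^X` and `W_r^Y` are the same. -/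
def Same (r : Code) (X Y : ℕ → Bool) : Prop :=
  le (ch (W r X)) (ch (W r Y)) ∧ le (ch (W r Y)) (ch (W r X))

/-- `i` reduces `Y` to `X`, and some member of `M` reduces `X` to `Y`. -/
def Step (i : Code) (M : List Code) (X Y : ℕ → Bool) : Prop := Red i X Y ∧ ∃ j ∈ M, Red j Y X

/-- `X` is read as `X₀ ⊕ (X₁ ⊕ (... ⊕ (X_{k-1} ⊕ Z)))`, where `k` is the length of the list; `Y` is
obtained from `X` by a step for one of the parts `X_c`, with the program and the list number `c`, or by
the change of at most one digit of `Z`. -/
def Steps : List (Code × List Code) → (ℕ → Bool) → (ℕ → Bool) → Prop
  | [], X, Y => ∃ k, ∀ n, n ≠ k → X n = Y n
  | (i, M) :: L, X, Y => (Step i M (evn X) (evn Y) ∧ odd X = odd Y) ∨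
      (evn X = evn Y ∧ Steps L (odd X) (odd Y))

theorem steps (L : List (Code × List Code)) : ∀ X Y : ℕ → Bool,
    Steps L X Y → Pool.Agent.V7H75.TQ.Stp L X Y := by
  induction L with
  | nil => exact fun X Y h => h
  | cons a L ih =>
    intro X Y h
    rcases h with h | h
    · exact Or.inl h
    · exact Or.inr ⟨h.1, ih _ _ h.2⟩

theorem result :
    -- 1. one program and a finite list of programs for the way back
    (∀ (i : Code) (M : List Code), ∃ r : Code, Post r ∧ ∀ X Y, Step i M X Y → Same r X Y) ∧
    -- 2. several programs on different parts of the oracle, and changes of single digits
    (∀ L : List (Code × List Code), ∃ r : Code, Post r ∧ ∀ X Y, Steps L X Y → Same r X Y) := by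
  refine ⟨fun i M => ?_, fun L => ?_⟩
  · obtain ⟨r, h1, h2⟩ := Pool.Agent.V7H75.TG.main i M
    exact ⟨r, h1, fun X Y h => h2 X Y h.1 h.2⟩
  · obtain ⟨r, h1, h2⟩ := (Pool.Agent.V7H75.TQ.rtsL L).solve
    exact ⟨r, h1, fun X Y h => h2 X Y (steps L X Y h)⟩

end Pool.Agent.Results.MP_57825d_lc.SeveralProgramsH75
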